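import Mathlib

namespace Pool.Agent.H.MP_2eb075_an

open Set Filter Topology Metric
open scoped ComplexConjugate

lemma real {l a : ℝ} (l1 : 1 ≤ l) (ha : IsGreatest {a : ℝ | 0 < a ∧ ∀ x y : ℝ, 0 ≤ x →
    0 ≤ y → x ^ 2 + y ^ 2 ≤ 1 → 0 ≤ l * x ^ 2 + y ^ 2 - a * x * y ^ 2} a) :
    ∃ c κ : ℝ, 0 < c ∧ 0 < κ ∧ 2 * c * κ ≤ a ∧ ∀ x s : ℝ, 0 ≤ x → 0 ≤ s → x ^ 2 + s < 1 →
      0 < x ^ 2 + s → κ * (x - c * s) ^ 2 < l * x ^ 2 + s - a * x * s := by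
  obtain ⟨y, ⟨y0, y1⟩, hy⟩ := intermediate_value_Ioo (zero_le_one' ℝ) (f := fun y =>
    (l - 1) * y ^ 2 * (1 + y ^ 2) + 3 * y ^ 2) (by fun_prop) (show (1 : ℝ) ∈ _ from
      ⟨by norm_num, by norm_num; linarith⟩)
  have hy : l = 1 + (1 - 3 * y ^ 2) / (y ^ 2 * (1 + y ^ 2)) := by
    field_simp; linear_combination hy
  have y2 : 0 < 1 - y ^ 2 := by nlinarith
  have p : ∀ x, l * x ^ 2 + (1 - x ^ 2) * (1 - 2 / (y * (1 + y ^ 2)) * x) =
      (x - y) ^ 2 * (2 / (y * (1 + y ^ 2)) * x + 1 / y ^ 2) := fun x => by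
    rw [hy]; field_simp; ring
  have k : ∀ c κ x s : ℝ, (1 - x ^ 2) * (l * x ^ 2 + s - 2 / (y * (1 + y ^ 2)) * x * s -
      κ * (x - c * s) ^ 2) = (1 - x ^ 2 - s) * ((l - κ) * x ^ 2 + κ * c ^ 2 * (1 - x ^ 2) * s) +
        s * ((x - y) ^ 2 * (2 / (y * (1 + y ^ 2)) * x + 1 / y ^ 2) -
          κ * (x - c * (1 - x ^ 2)) ^ 2) := fun c κ x s => by rw [← p]; ring
  obtain rfl : a = 2 / (y * (1 + y ^ 2)) := by
    refine le_antisymm ?_ (ha.2 ⟨by positivity, fun x t x0 _ h => ?_⟩)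
    · have := ha.1.2 y _ y0.le (Real.sqrt_nonneg (1 - y ^ 2)) (by rw [Real.sq_sqrt y2.le]; simp)
      rw [Real.sq_sqrt y2.le] at this
      refine le_of_mul_le_mul_right ?_ (mul_pos y0 y2)
      nlinarith [p y]
    · rcases (show 0 ≤ 1 - x ^ 2 by nlinarith).eq_or_lt with e | e
      · rw [show t ^ 2 = 0 by nlinarith]; simpa using by positivity
      refine le_of_mul_le_mul_left ?_ e
      have := k 0 0 x (t ^ 2)
      simp only [zero_mul, sub_zero, add_zero] at this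
      have q : 0 ≤ 1 - x ^ 2 - t ^ 2 := by linarith
      rw [this, mul_zero]
      positivity
  set c := y / (1 - y ^ 2) with hc
  set a := 2 / (y * (1 + y ^ 2))
  have c0 : 0 < c := by positivity
  have a0 : 0 < a := by positivity
  obtain ⟨κ, ⟨⟨h1, h2⟩, h3⟩, h4⟩ := ((((Continuous.continuousWithinAt (s := Ioi 0) (x := (0 : ℝ))
    (f := fun κ => 2 * c * κ) (by fun_prop)).eventually_lt_const (by simpa using a0)).and
      ((Continuous.continuousWithinAt (s := Ioi 0) (x := (0 : ℝ)) (f := fun κ => κ * (1 + 2 * c) ^ 2)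
        (by fun_prop)).eventually_lt_const (u := 1) (by simp))).and (Ioo_mem_nhdsGT one_pos) |>.and
          self_mem_nhdsWithin).exists
  refine ⟨c, κ, c0, h4, h1.le, fun x s x0 s0 h h' => sub_pos.1 (pos_of_mul_pos_left
    (b := 1 - x ^ 2) ?_ (by linarith))⟩
  have x1 : x < 1 := by nlinarith
  have e : x - c * (1 - x ^ 2) = (x - y) * (1 + c * (x + y)) := by rw [hc]; field_simp; ring
  have q1 : κ * (1 + c * (x + y)) ^ 2 ≤ a * x + 1 / y ^ 2 :=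
    calc _ ≤ κ * (1 + 2 * c) ^ 2 := by
          have := h3.1
          gcongr κ * ?_ ^ 2
          nlinarith
      _ ≤ 1 / y ^ 2 := h2.le.trans (one_le_one_div (by positivity) (by linarith))
      _ ≤ _ := le_add_of_nonneg_left (by positivity)
  rw [mul_comm, k, e, mul_pow]
  refine add_pos_of_pos_of_nonneg (mul_pos (by linarith) ?_) (mul_nonneg s0 (by
    nlinarith [mul_le_mul_of_nonneg_left q1 (sq_nonneg (x - y))]))
  have q2 : 0 < l - κ := by linarith [h3.2]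
  have q3 : 0 < 1 - x ^ 2 := by linarith
  have := h3.1
  rcases x0.eq_or_lt with rfl | x0
  · have : 0 < s := by simpa using h'
    positivity
  · positivity

lemma bil {ε M : ℝ} (h : 24 * |ε| * M ^ 2 ≤ 1) {u v : ℂ} (hu : ‖u‖ ≤ 2 * M) (hv : ‖v‖ ≤ 2 * M) :
    ‖ε * u ^ 3 - ε * v ^ 3‖ ≤ 1 / 2 * ‖u - v‖ := by
  have M0 : 0 ≤ 2 * M := (norm_nonneg _).trans hu
  rw [show ε * u ^ 3 - ε * v ^ 3 = ε * (u * u + u * v + v * v) * (u - v) by ring, norm_mul, norm_mul,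
    Complex.norm_real, Real.norm_eq_abs]
  gcongr
  have : ‖u * u + u * v + v * v‖ ≤ 2 * M * (2 * M) + 2 * M * (2 * M) + 2 * M * (2 * M) :=
    norm_add₃_le.trans (by simp only [norm_mul]; gcongr)
  nlinarith [mul_le_mul_of_nonneg_left this (abs_nonneg ε)]

lemma den {ε M : ℝ} (h : 24 * |ε| * M ^ 2 ≤ 1) {u : ℂ} (hu : ‖u‖ ≤ 2 * M) :
    1 / 2 ≤ ‖1 + 3 * ε * u ^ 2‖ := by
  have := norm_sub_norm_le (1 : ℂ) (-(3 * ε * u ^ 2))
  simp only [sub_neg_eq_add, norm_neg, norm_one, norm_mul, norm_pow, Complex.norm_real,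
    Real.norm_eq_abs, Complex.norm_ofNat] at this
  nlinarith [mul_le_mul_of_nonneg_left (pow_le_pow_left₀ (norm_nonneg _) hu 2) (abs_nonneg ε)]

lemma inv {ε M : ℝ} (h : 24 * |ε| * M ^ 2 ≤ 1) : ∃ ψ : ℂ → ℂ, (∀ U, ‖U‖ < M → ‖ψ U‖ ≤ 2 * ‖U‖ ∧
    ψ U + ε * ψ U ^ 3 = U ∧ HasDerivAt ψ (1 + 3 * ε * ψ U ^ 2)⁻¹ U) ∧
    ∀ u : ℂ, ‖u‖ ≤ 2 * M → ‖u + ε * u ^ 3‖ < M → ψ (u + ε * u ^ 3) = u := by
  have a : ∀ U : ℂ, ∃ u, ‖U‖ < M → ‖u‖ ≤ 2 * M ∧ u + ε * u ^ 3 = U := fun U => by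
    by_cases q : ‖U‖ < M
    swap
    · exact ⟨0, fun e => (q e).elim⟩
    have M0 : 0 ≤ 2 * M := by linarith [norm_nonneg U]
    have m : MapsTo (fun u => U - ε * u ^ 3) (closedBall 0 (2 * M)) (closedBall 0 (2 * M)) :=
      fun u hu => by
        rw [mem_closedBall_zero_iff] at hu ⊢
        have := bil h hu (v := 0) (by rwa [norm_zero])
        simp only [ne_eq, OfNat.ofNat_ne_zero, not_false_eq_true, zero_pow, mul_zero, sub_zero] at this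
        linarith [norm_sub_le U (ε * u ^ 3)]
    obtain ⟨u, h1, h2, -⟩ := ContractingWith.exists_fixedPoint' (K := 1 / 2)
      isClosed_closedBall.isComplete m ⟨by norm_num, LipschitzWith.of_dist_le_mul fun u v => by
        have := bil h (mem_closedBall_zero_iff.1 u.2) (mem_closedBall_zero_iff.1 v.2)
        simpa [Subtype.dist_eq, dist_eq_norm, norm_sub_rev] using this⟩
      (mem_closedBall_self M0) (edist_ne_top _ _)
    exact ⟨u, fun _ => ⟨mem_closedBall_zero_iff.1 h1, (eq_sub_iff_add_eq.1 h2.symm)⟩⟩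
  choose ψ hψ using a
  have b : ∀ u v : ℂ, ‖u‖ ≤ 2 * M → ‖v‖ ≤ 2 * M →
      ‖u - v‖ ≤ 2 * ‖u + ε * u ^ 3 - (v + ε * v ^ 3)‖ := fun u v hu hv => by
    have := norm_sub_le (u + ε * u ^ 3 - (v + ε * v ^ 3)) (ε * u ^ 3 - ε * v ^ 3)
    rw [show u + ε * u ^ 3 - (v + ε * v ^ 3) - (ε * u ^ 3 - ε * v ^ 3) = u - v by ring] at this
    linarith [bil h hu hv]
  refine ⟨ψ, fun U hU => ⟨?_, (hψ U hU).2, ?_⟩, fun (u : ℂ) hu h' => ?_⟩
  · simpa [(hψ U hU).2] using b _ 0 (hψ U hU).1 (by simpa using (norm_nonneg _).trans_lt hU |>.le)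
  · have o := isOpen_ball.mem_nhds (mem_ball_zero_iff.2 hU)
    refine HasDerivAt.of_local_left_inverse (f := fun u : ℂ => u + ε * u ^ 3)
      ((LipschitzOnWith.of_dist_le_mul (K := 2) fun x hx y hy => ?_).continuousOn.continuousAt o)
      (((hasDerivAt_id' _).add ((hasDerivAt_pow 3 (ψ U)).const_mul (ε : ℂ))).congr_deriv (by
        norm_num; ring))
      (norm_pos_iff.1 (one_half_pos.trans_le (den h (hψ U hU).1)))
      (mem_of_superset o fun y hy => (hψ y (mem_ball_zero_iff.1 hy)).2)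
    rw [mem_ball_zero_iff] at hx hy
    simpa [dist_eq_norm, (hψ x hx).2, (hψ y hy).2] using b _ _ (hψ x hx).1 (hψ y hy).1
  · have := b _ _ (hψ _ h').1 hu
    rwa [(hψ _ h').2, sub_self, norm_zero, mul_zero, norm_le_zero_iff, sub_eq_zero] at this

/-- first component of the perturbed field -/
noncomputable def hh (l a c ε : ℝ) (x y : ℂ) : ℂ := l * x - a * y ^ 2 + (x - c * y ^ 2) ^ 2 *
  (ε * (3 * (a + (2 - l) * c) * y ^ 2 - 2 * l * (x - c * y ^ 2)) / (1 + 3 * ε * (x - c * y ^ 2) ^ 2))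

lemma pos {l a c κ ε M : ℝ} (l1 : 1 ≤ l) (l2 : l < 2) (a0 : 0 < a) (c0 : 0 < c) (hk : 2 * c * κ ≤ a)
    (hκ : ∀ x s : ℝ, 0 ≤ x → 0 ≤ s → x ^ 2 + s < 1 →
      0 < x ^ 2 + s → κ * (x - c * s) ^ 2 < l * x ^ 2 + s - a * x * s)
    (h : 24 * |ε| * M ^ 2 ≤ 1) (hM : 1 + c ≤ M) (h' : |ε| * (3 * (a + c) + 4 * (1 + c)) * 2 ≤ κ)
    {x y : ℂ} (h1 : ‖x‖ ^ 2 + ‖y‖ ^ 2 < 1) (h0 : 0 < ‖x‖ ^ 2 + ‖y‖ ^ 2) :
    0 < (hh l a c ε x y * conj x).re + ‖y‖ ^ 2 := by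
  have x1 : ‖x‖ ≤ 1 := by nlinarith [norm_nonneg x, sq_nonneg ‖y‖]
  have y1 : ‖y‖ ^ 2 ≤ 1 := by nlinarith [sq_nonneg ‖x‖]
  have w1 : ‖x - c * y ^ 2‖ ≤ 1 + c := (norm_sub_le _ _).trans (by
    rw [norm_mul, norm_pow, Complex.norm_real, Real.norm_of_nonneg c0.le]; nlinarith)
  have d := den h (u := x - c * y ^ 2) (by linarith)
  have n : ‖3 * (a + (2 - l) * c) * y ^ 2 - 2 * l * (x - c * y ^ 2)‖ ≤ 3 * (a + c) + 4 * (1 + c) := by
    refine (norm_sub_le _ _).trans ?_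
    have : 0 ≤ a + (2 - l) * c := by have := sub_pos.2 l2; positivity
    rw [show (a + (2 - l) * c : ℂ) = (a + (2 - l) * c : ℝ) by push_cast; rfl]
    simp only [norm_mul, norm_pow, Complex.norm_real, Complex.norm_ofNat, Real.norm_of_nonneg this,
      Real.norm_of_nonneg (zero_le_one.trans l1)]
    nlinarith [norm_nonneg (x - c * y ^ 2)]
  have p : ‖(x - c * y ^ 2) ^ 2 * (ε * (3 * (a + (2 - l) * c) * y ^ 2 - 2 * l * (x - c * y ^ 2)) /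
      (1 + 3 * ε * (x - c * y ^ 2) ^ 2)) * conj x‖ ≤ ‖x - c * y ^ 2‖ ^ 2 * κ := by
    simp only [norm_mul, norm_pow, norm_div, Complex.norm_real, Complex.norm_conj, Real.norm_eq_abs]
    calc _ ≤ ‖x - c * y ^ 2‖ ^ 2 * (|ε| * (3 * (a + c) + 4 * (1 + c)) / (1 / 2)) * 1 := by gcongr
      _ ≤ _ := by rw [mul_one]; gcongr; linarith
  have p2 := (abs_le.1 ((Complex.abs_re_le_norm _).trans p)).1
  have r : (y ^ 2 * conj x).re ≤ ‖x‖ * ‖y‖ ^ 2 := (Complex.re_le_norm _).trans_eq (by simp [mul_comm])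
  have e1 : ‖x - c * y ^ 2‖ ^ 2 = ‖x‖ ^ 2 + c ^ 2 * (‖y‖ ^ 2) ^ 2 - 2 * c * (y ^ 2 * conj x).re := by
    simp only [Complex.sq_norm, Complex.normSq_apply]; simp [sq]; ring
  have e2 : ((l * x - a * y ^ 2) * conj x).re = l * ‖x‖ ^ 2 - a * (y ^ 2 * conj x).re := by
    simp only [Complex.sq_norm, Complex.normSq_apply]; simp [sq]; ring
  rw [hh, add_mul, Complex.add_re, e2]
  rw [e1] at p2
  nlinarith [hκ _ _ (norm_nonneg x) (sq_nonneg ‖y‖) h1 h0, mul_le_mul_of_nonneg_left r (sub_nonneg.2 hk)]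

end Pool.Agent.H.MP_2eb075_an
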